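import Pool.Agent.FWS.St2

/-!
# Squad FWS, row DCJ: detection is invariant under conjugation
-/

set_option autoImplicit false

namespace Pool.Agent.FWS.H55

open Matrix

/-- The form as a dot product. -/
theorem frm_eq {ι : Type} [Fintype ι] (a b : ι → ℂ) (y : Matrix ι ι ℂ) :
    frm a b y = star a ⬝ᵥ (y *ᵥ b) := by
  simp only [frm, dotProduct, Matrix.mulVec, Pi.star_apply, Finset.mul_sum]
  refine Finset.sum_congr rfl fun i _ => Finset.sum_congr rfl fun j _ => ?_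
  ring

/-- Moving matrices from the vectors to the middle. -/
theorem frm_mul {ι : Type} [Fintype ι] (a b : ι → ℂ) (u y v : Matrix ι ι ℂ) :
    frm (u *ᵥ a) (v *ᵥ b) y = frm a b (star u * y * v) := by
  rw [frm_eq, frm_eq, Matrix.star_mulVec, ← Matrix.dotProduct_mulVec]
  rw [Matrix.mulVec_mulVec, Matrix.mulVec_mulVec, Matrix.star_eq_conjTranspose]

/-- DCJ. -/
theorem dcj : DCJ := by
  intro G _ ι _ _ σ a b e r h R
  obtain ⟨κ, hκ, h⟩ := h
  refine ⟨κ, hκ, fun x => ?_⟩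
  obtain ⟨g, hg⟩ := h x
  refine ⟨R * g, hg.trans (le_of_eq ?_)⟩
  congr 1
  rw [frm_mul]
  congr 1
  have h1 : R * g * x * (R * g)⁻¹ = R * (g * x * g⁻¹) * R⁻¹ := by group
  have h2 : (σ (R * g * x * (R * g)⁻¹)).1 = (σ R).1 * (σ (g * x * g⁻¹)).1 * star (σ R).1 := by
    rw [h1, map_mul, map_mul, map_inv]
    rfl
  have h3 : star (σ R).1 * (σ R).1 = 1 := Unitary.star_mul_self_of_mem (σ R).2
  rw [h2]
  calc (σ (g * x * g⁻¹)).1 = 1 * (σ (g * x * g⁻¹)).1 * 1 := by rw [one_mul, mul_one]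
    _ = (star (σ R).1 * (σ R).1) * (σ (g * x * g⁻¹)).1 * (star (σ R).1 * (σ R).1) := by rw [h3]
    _ = _ := by simp only [Matrix.mul_assoc]

end Pool.Agent.FWS.H55
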